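import Pool.Agent.Y713.NS.Bio

/-!
# The Neumann series diverges at every non-zero vector

Question 1: `E` is a Fréchet space and `U` a continuous linear operator on `E` such that `I - λ U` is
invertible for all small `λ`. Does the Neumann series converge for small `λ`? The earlier result
`NeumannDiverges` constructs one space, one operator and ONE vector at which the series diverges
for all `λ ≠ 0`.

Here: let `V` be a bounded operator on a Banach space `X` with `‖V ^ n‖ r ^ n → 0` for all `r`
(`Quasi`; over the complex numbers this says that `V` is quasi-nilpotent). On the inverse limit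
`Lim V = {x : ℕ → X | x k = V (x (k + 1))}`, a closed subspace of the countable power of `X`, let
`U = shift V` be the shift. Then `I - μ U` is bijective for ALL `μ`, and for EVERY `x ≠ 0` and every
`μ ≠ 0` even the terms `μ ^ k U ^ k x` are unbounded. For the Volterra operator on `C [0, 1]` this is
`U = d / dt` on the space of the smooth functions which are flat at `0`. On every
infinite-dimensional Banach space there is such a `V` with `Lim V ≠ 0`; hence the countable power of
every infinite-dimensional Banach space contains such an example.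
-/

set_option autoImplicit false

open Filter Topology Set
open scoped Uniformity

namespace Pool.Agent.Results.MP_18d2fb_an.EveryVector

open Pool.Agent.Y713.NS

universe u

/-- Spaces of type `(B₀)`, i.e. Fréchet spaces: Hausdorff complete topological vector spaces whose
topology is given by seminorms and is metrizable (countably generated uniformity). -/
structure IsFrechetSpace (𝕜 : Type) (E : Type u) [RCLike 𝕜] [AddCommGroup E] [Module 𝕜 E]
    [UniformSpace E] : Prop where
  isUniformAddGroup : IsUniformAddGroup E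
  continuousSMul : ContinuousSMul 𝕜 E
  t2 : T2Space E
  complete : CompleteSpace E
  countable : (𝓤 E).IsCountablyGenerated
  polynormable : PolynormableSpace 𝕜 E

/-- The Neumann series `∑ μᵏ Uᵏ x` converges in `E` to `s`. -/
def NeumannConvergesTo {𝕜 : Type} {E : Type u} [RCLike 𝕜] [AddCommGroup E] [Module 𝕜 E]
    [UniformSpace E] (U : E →L[𝕜] E) (μ : 𝕜) (x s : E) : Prop :=
  Tendsto (fun N : ℕ => ∑ k ∈ Finset.range N, μ ^ k • (U^[k]) x) atTop (𝓝 s)

/-- `I - μ U` is a bijection for every scalar `μ`, and for every `x ≠ 0` and every `μ ≠ 0` the terms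
`μ ^ k U ^ k x` are unbounded and the Neumann series diverges. -/
def TotallyDivergent {𝕜 : Type} {E : Type u} [RCLike 𝕜] [AddCommGroup E] [Module 𝕜 E]
    [UniformSpace E] (U : E →L[𝕜] E) : Prop :=
  (∀ μ : 𝕜, Function.Bijective fun x => x - μ • U x) ∧
    ∀ x : E, x ≠ 0 → ∀ μ : 𝕜, μ ≠ 0 →
      ¬ Bornology.IsVonNBounded 𝕜 (range fun k : ℕ => μ ^ k • (U^[k]) x) ∧
      ∀ s : E, ¬ NeumannConvergesTo U μ x s

variable {𝕜 : Type} [RCLike 𝕜] {X : Type u} [NormedAddCommGroup X] [NormedSpace 𝕜 X]

theorem isFrechet [CompleteSpace X] (V : X →L[𝕜] X) : IsFrechetSpace 𝕜 (Lim V) where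
  isUniformAddGroup := (Lim V).toAddSubgroup.isUniformAddGroup
  continuousSMul := inferInstance
  t2 := inferInstance
  complete := (isClosed_Lim V).completeSpace_coe
  countable := by
    rw [uniformity_subtype]
    infer_instance
  polynormable := inferInstance

/-- the first coordinate -/
noncomputable def ev (V : X →L[𝕜] X) : Lim V →L[𝕜] X :=
  (ContinuousLinearMap.proj (R := 𝕜) (φ := fun _ : ℕ => X) 0).comp (Lim V).subtypeL

theorem ev_apply (V : X →L[𝕜] X) (x : Lim V) : ev V x = (x : ℕ → X) 0 := rfl

theorem totallyDivergent [CompleteSpace X] (V : X →L[𝕜] X) (hV : Quasi V) :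
    TotallyDivergent (shift V) := by
  refine ⟨bijective V hV, fun x hx μ hμ => ⟨fun hb => ?_, fun s hs => ?_⟩⟩
  · have h1 := hb.image (ev V)
    rw [NormedSpace.isVonNBounded_iff] at h1
    obtain ⟨C, hC⟩ := h1.exists_norm_le
    refine unbounded V hV μ hμ x hx ⟨C, fun k => ?_⟩
    exact hC _ ⟨_, ⟨k, rfl⟩, rfl⟩
  · have h1 : Tendsto (fun N : ℕ => μ ^ N • ((shift V)^[N]) x) atTop (𝓝 (s - s)) := by
      have h2 := ((tendsto_add_atTop_iff_nat 1).2 hs).sub hs
      refine h2.congr fun N => ?_
      rw [Finset.sum_range_succ, add_sub_cancel_left]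
    have h3 := (((ev V).continuous.tendsto _).comp h1).norm
    obtain ⟨C, hC⟩ := h3.bddAbove_range
    refine unbounded V hV μ hμ x hx ⟨C, fun k => ?_⟩
    exact hC ⟨k, rfl⟩

/-- the space of square summable sequences is infinite-dimensional -/
theorem not_finiteDimensional (𝕜 : Type) [RCLike 𝕜] :
    ¬ FiniteDimensional 𝕜 (lp (fun _ : ℕ => 𝕜) 2) := by
  intro h
  have h1 : LinearIndependent 𝕜 (fun n : ℕ => lp.single 2 n (1 : 𝕜)) := by
    rw [linearIndependent_iff']
    intro s g hg i hi
    have h2 := congrArg (fun y : lp (fun _ : ℕ => 𝕜) 2 => (y : ℕ → 𝕜) i) hg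
    simp only [lp.coeFn_sum, Finset.sum_apply, lp.coeFn_smul, Pi.smul_apply, lp.coeFn_zero,
      Pi.zero_apply] at h2
    rw [Finset.sum_eq_single i] at h2
    · simpa using h2
    · intro j _ hj
      simp [lp.single_apply, hj.symm]
    · intro h
      exact absurd hi h
  have := h1.finite
  exact not_finite ℕ

/-- **Main theorem.** (1) For every bounded operator `V` on a Banach space `X` with
`‖V ^ n‖ r ^ n → 0` for all `r`, the inverse limit `Lim V`, a closed subspace of the countable power
of `X`, is a Fréchet space, `I - μ U` is bijective for every scalar `μ`, where `U` is the shift,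
and for every `x ≠ 0` in it and every `μ ≠ 0` the terms `μ ^ k U ^ k x` are unbounded; in
particular the Neumann series diverges. (2) On every infinite-dimensional Banach space there is
such an operator `V` with `Lim V ≠ 0`. (3) In particular there is a Fréchet space `E ≠ 0` with such
an operator `U`. -/
theorem result (𝕜 : Type) [RCLike 𝕜] :
    (∀ (X : Type u) [NormedAddCommGroup X] [NormedSpace 𝕜 X] [CompleteSpace X] (V : X →L[𝕜] X),
      Quasi V → IsClosed (Lim V : Set (ℕ → X)) ∧ IsFrechetSpace 𝕜 (Lim V) ∧
        TotallyDivergent (shift V)) ∧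
    (∀ (X : Type u) [NormedAddCommGroup X] [NormedSpace 𝕜 X] [CompleteSpace X],
      ¬ FiniteDimensional 𝕜 X → ∃ V : X →L[𝕜] X, Quasi V ∧ ∃ x : Lim V, x ≠ 0) ∧
    ∃ (E : Type) (_ : AddCommGroup E) (_ : Module 𝕜 E) (_ : UniformSpace E) (U : E →L[𝕜] E),
      IsFrechetSpace 𝕜 E ∧ (∃ x : E, x ≠ 0) ∧ TotallyDivergent U := by
  refine ⟨fun X _ _ _ V hV => ⟨isClosed_Lim V, isFrechet V, totallyDivergent V hV⟩,
    fun X _ _ _ hX => exists_quasi hX, ?_⟩
  obtain ⟨V, hV, hx⟩ := exists_quasi (not_finiteDimensional 𝕜)
  exact ⟨Lim V, inferInstance, inferInstance, inferInstance, shift V, isFrechet V, hx,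
    totallyDivergent V hV⟩

end Pool.Agent.Results.MP_18d2fb_an.EveryVector
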